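import Pool.Agent.N123.ZE.RAREK
import Pool.Agent.N869.GK.Stm

/-!
# Project GK (helper869), part RAREG (helper572): degenerate labels are rare, modulus `M`

Port of `Pool/Agent/N123/ZE/RAREK.lean` (helper123).
-/

set_option autoImplicit false
set_option linter.unusedVariables false

open scoped Classical

namespace Pool.Agent.N572.GK.RAREG

open Finset Filter
open Pool.Agent.Y703.CX (sm la eL zz kk S_SIE)
open Pool.Agent.Y703.CQ (nr)
open Pool.Agent.N973.ND (uu)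
open Pool.Agent.N916.GB (Po SA)
open Pool.Agent.Y495.CX.Few (prod_pos')
open Pool.Agent.N124.QT (av pr_le_av av_sum av_add av_mul av_prod card_pos')
open Pool.Agent.N869.QT.G (pr)
open Pool.Agent.N123.ZE.RAREK (pN pN_pos genN fiberW three_pow_le SA_mem)
open Pool.Agent.N869.GK (Gr Par LabZ LabOk NdG gWG gAG S_ESTG S_HALG S_CLSG S_RAREG)

lemma gWG_ge {r : ℕ} (M : ℕ) (lb : ℕ → Gr r) (W : Finset ℕ) (p : ℕ) : 0 ≤ gWG M lb W p := by
  unfold gWG
  split_ifs <;> norm_num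

lemma gWG_le {r : ℕ} (M : ℕ) (lb : ℕ → Gr r) (W : Finset ℕ) (p : ℕ) : gWG M lb W p ≤ 1 := by
  unfold gWG
  split_ifs <;> norm_num

lemma gAG_ge (M a p : ℕ) : 1 / 3 ≤ gAG M a p := by
  unfold gAG
  split_ifs <;> norm_num

lemma gAG_le (M a p : ℕ) : gAG M a p ≤ 1 := by
  unfold gAG
  split_ifs <;> norm_num

lemma gAG_nn (M a p : ℕ) : 0 ≤ gAG M a p := by
  have := gAG_ge M a p
  linarith

/-- the pointwise bound -/
theorem ptw {r : ℕ} {Q : Type} [Fintype Q] (M : ℕ) (lb : ℕ → Gr r) (cl : Gr r → ℕ)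
    (hcl : ∀ π : Gr r, ∀ p : ℕ, p.Prime → p % M = cl π % M → lb p = π) (K : ℕ) (S₀ T : Finset ℕ)
    (hT : ∀ p ∈ T, p.Prime ∧ p ∉ S₀) (γ : ℕ → Q) (G : ℝ)
    (hG : (3 : ℝ) ^ (K * (S₀.card + Nat.log 2 T.card + 1)) ≤ G) (h : ¬ NdG lb K γ S₀ T) :
    1 ≤ ∑ q : Q, (∑ W ∈ S₀.powerset.filter (fun W => W.Nonempty),
      ∏ p ∈ T.filter (fun p => γ p = q), gWG M lb W p +
      ∑ π : Gr r, G * ∏ p ∈ T.filter (fun p => γ p = q), gAG M (cl π) p) := by
  have hM0 : 0 ≤ G := le_trans (by positivity) hG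
  have hA0 : ∀ q : Q, 0 ≤ ∑ W ∈ S₀.powerset.filter (fun W => W.Nonempty),
      ∏ p ∈ T.filter (fun p => γ p = q), gWG M lb W p :=
    fun q => sum_nonneg fun W _ => prod_nonneg fun p _ => gWG_ge M lb W p
  have hB1 : ∀ (q : Q) (π : Gr r), 0 ≤ G * ∏ p ∈ T.filter (fun p => γ p = q), gAG M (cl π) p :=
    fun q π => mul_nonneg hM0 (prod_nonneg fun p _ => gAG_nn M (cl π) p)
  have hB0 : ∀ q : Q, 0 ≤ ∑ π : Gr r, G * ∏ p ∈ T.filter (fun p => γ p = q), gAG M (cl π) p :=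
    fun q => sum_nonneg fun π _ => hB1 q π
  unfold NdG at h
  push Not at h
  obtain ⟨q, hq⟩ := h
  refine le_trans ?_ (single_le_sum (fun q _ => add_nonneg (hA0 q) (hB0 q)) (mem_univ q))
  have hA := hA0 q
  have hB := hB0 q
  by_cases hN : ∀ w : ℕ → ZMod 2, (∃ u ∈ S₀, w u ≠ 0) →
    ∃ p ∈ T, γ p = q ∧ lb p = 0 ∧ ∑ u ∈ S₀, w u * nr p u ≠ 0
  · obtain ⟨π, hlt⟩ := hq hN
    set m := K * (S₀.card + Nat.log 2 T.card + 1) with hm
    have h2 : (1 / 3 : ℝ) ^ m ≤ ∏ p ∈ T.filter (fun p => γ p = q), gAG M (cl π) p := by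
      have e1 : ∏ p ∈ T.filter (fun p => γ p = q), gAG M (cl π) p =
          ∏ p ∈ T.filter (fun p => γ p = q ∧ lb p = π), gAG M (cl π) p := by
        rw [← filter_filter, prod_filter (s := T.filter fun p => γ p = q)]
        refine prod_congr rfl fun p hp => ?_
        by_cases htt : lb p = π
        · rw [if_pos htt]
        · rw [if_neg htt]
          unfold gAG
          rw [if_neg (fun h => htt (hcl π p (hT p (mem_filter.1 hp).1).1 h))]
      rw [e1]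
      calc ((1 : ℝ) / 3) ^ m ≤ (1 / 3) ^ (T.filter (fun p => γ p = q ∧ lb p = π)).card :=
            pow_le_pow_of_le_one (by norm_num) (by norm_num) hlt.le
        _ = ∏ _p ∈ T.filter (fun p => γ p = q ∧ lb p = π), ((1 : ℝ) / 3) := by rw [prod_const]
        _ ≤ ∏ p ∈ T.filter (fun p => γ p = q ∧ lb p = π), gAG M (cl π) p :=
            prod_le_prod (fun _ _ => by norm_num) fun p _ => gAG_ge M (cl π) p
    have h3 : (3 : ℝ) ^ m * (1 / 3) ^ m = 1 := by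
      rw [← mul_pow]
      norm_num
    have h4 : (3 : ℝ) ^ m * (1 / 3) ^ m ≤ G * ∏ p ∈ T.filter (fun p => γ p = q), gAG M (cl π) p := by
      gcongr
    have h5 := single_le_sum (f := fun π : Gr r =>
      G * ∏ p ∈ T.filter (fun p => γ p = q), gAG M (cl π) p) (fun π _ => hB1 q π) (mem_univ π)
    beta_reduce at h5
    linarith
  · push Not at hN
    obtain ⟨w, ⟨u, hu, hw⟩, h2⟩ := hN
    set W := S₀.filter fun u => w u ≠ 0 with hWdef
    have hW : W ∈ S₀.powerset.filter (fun W => W.Nonempty) := by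
      rw [mem_filter, mem_powerset]
      exact ⟨filter_subset _ _, ⟨u, by rw [hWdef, mem_filter]; exact ⟨hu, hw⟩⟩⟩
    have h1 : ∏ p ∈ T.filter (fun p => γ p = q), gWG M lb W p = 1 := by
      refine prod_eq_one fun p hp => ?_
      rw [mem_filter] at hp
      unfold gWG
      refine if_neg ?_
      rintro ⟨h7, h8, hH⟩
      apply hH
      refine ⟨fun hpW => (hT p hp.1).2 (filter_subset _ _ hpW), ?_⟩
      refine Eq.trans ?_ (h2 p hp.1 hp.2 h8)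
      rw [hWdef, sum_filter]
      refine sum_congr rfl fun u _ => ?_
      have key : ∀ a : ZMod 2, a = 0 ∨ a = 1 := by decide
      rcases key (w u) with h | h
      · rw [h]
        simp
      · rw [h]
        simp
    have h3 := single_le_sum (f := fun W : Finset ℕ => ∏ p ∈ T.filter (fun p => γ p = q),
      gWG M lb W p) (fun W _ => prod_nonneg fun p _ => gWG_ge M lb W p) hW
    beta_reduce at h3
    rw [h1] at h3
    linarith

/-- the count over a fibre -/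
theorem fibC {r : ℕ} (M : ℕ) (hM : 0 < M) (lb : ℕ → Gr r) (cl : Gr r → ℕ)
    (hcl0 : ∀ π, cl π < M ∧ (cl π).Coprime M)
    (hcl : ∀ π : Gr r, ∀ p : ℕ, p.Prime → p % M = cl π % M → lb p = π) {C κ : ℝ} (hC1 : 1 ≤ C)
    (hC : ∀ (q : ℝ) (Y : ℕ), 1 ≤ q → 3 ≤ Y →
    (∀ W : Finset ℕ, W.Nonempty → (∀ u ∈ W, Po u ∧ ¬ u ∣ M) →
      ∑ S ∈ SA Y, ∏ p ∈ S, (1 - (1 - gWG M lb W p) / q) ≤
        C * (1 + Real.log ((∏ u ∈ W, u : ℕ) : ℝ)) * ((Y : ℝ) * (Real.log Y) ^ (-(κ / q) : ℝ))) ∧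
    ∀ a < M, a.Coprime M → ∑ S ∈ SA Y, ∏ p ∈ S, (1 - (1 - gAG M a p) / q) ≤
        C * ((Y : ℝ) * (Real.log Y) ^ (-(κ / q) : ℝ)))
    (Q : Type) [Fintype Q] [Nonempty Q] (K : ℕ)
    (X : ℕ) (S₀ : Finset ℕ) (hS₀ : ∀ u ∈ S₀, Po u ∧ u ≤ zz X)
    (hk : 1 ≤ kk X) (hT1 : 3 ≤ X / pN S₀) :
    ∑ S ∈ (SA X).filter (fun S => (S.card ≤ kk X ∧ Disjoint S M.primeFactors) ∧
        sm (zz X) S = S₀),
      pr S (fun γ : ℕ → Q => ¬ NdG lb K γ (sm (zz X) S) (la (zz X) S)) ≤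
      (Fintype.card Q * ((1 + Fintype.card (Gr r) * 3 ^ K) * C)) * (2 * 3 ^ K) ^ S₀.card *
        (kk X : ℝ) ^ (2 * K) *
        (1 + Real.log (pN S₀)) * (((X / pN S₀ : ℕ) : ℝ) *
          (Real.log ((X / pN S₀ : ℕ) : ℝ)) ^ (-(κ / (Fintype.card Q : ℝ)) : ℝ)) := by
  set F := (SA X).filter (fun S => (S.card ≤ kk X ∧ Disjoint S M.primeFactors) ∧
    sm (zz X) S = S₀) with hFdef
  set q : ℝ := (Fintype.card Q : ℝ) with hr
  have hr0 : 0 < q := card_pos' (Q := Q)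
  have hr1 : 1 ≤ q := by
    rw [hr]
    exact_mod_cast Fintype.card_pos (α := Q)
  set R : ℝ := (Fintype.card (Gr r) : ℝ) with hR
  have hR0 : 0 ≤ R := Nat.cast_nonneg _
  set PPP := S₀.powerset.filter (fun W => W.Nonempty) with hPPP
  set G : ℝ := 3 ^ K * (3 ^ K) ^ S₀.card * (kk X : ℝ) ^ (2 * K) with hMdef
  have hM0 : 0 ≤ G := by positivity
  set Z : ℝ := ((X / pN S₀ : ℕ) : ℝ) *
    (Real.log ((X / pN S₀ : ℕ) : ℝ)) ^ (-(κ / q) : ℝ) with hZ
  have hlg0 : 0 ≤ Real.log ((X / pN S₀ : ℕ) : ℝ) := Real.log_natCast_nonneg _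
  have hZ0 : 0 ≤ Z := mul_nonneg (Nat.cast_nonneg _) (Real.rpow_nonneg hlg0 _)
  have hlS : 0 ≤ Real.log (pN S₀) := Real.log_natCast_nonneg _
  have hC0 : 0 < C := by linarith
  have hF : ∀ S ∈ F, S ∈ SA X ∧ sm (zz X) S = S₀ := fun S hS => by
    rw [hFdef, mem_filter] at hS
    exact ⟨hS.1, hS.2.2⟩
  -- the primes in `S₀` do not divide `M`
  by_cases hdiv : ∃ u ∈ S₀, u ∣ M
  · obtain ⟨u, hu, hud⟩ := hdiv
    have hFe : F = ∅ := by
      rw [Finset.eq_empty_iff_forall_notMem]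
      intro S hS
      rw [hFdef, mem_filter] at hS
      obtain ⟨_, ⟨_, hdis⟩, hsm⟩ := hS
      have huS : u ∈ S := by
        rw [← hsm] at hu
        exact filter_subset _ _ hu
      refine Finset.disjoint_left.1 hdis huS ?_
      rw [Nat.mem_primeFactors]
      exact ⟨(hS₀ u hu).1.1, hud, hM.ne'⟩
    rw [hFe, sum_empty]
    positivity
  push Not at hdiv
  -- the pointwise bound and the averages
  have h1 : ∀ S ∈ F, pr S (fun γ : ℕ → Q => ¬ NdG lb K γ (sm (zz X) S) (la (zz X) S)) ≤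
      q * (∑ W ∈ PPP, ∏ p ∈ la (zz X) S, (1 - (1 - gWG M lb W p) / q) +
        ∑ π : Gr r, G * ∏ p ∈ la (zz X) S, (1 - (1 - gAG M (cl π) p) / q)) := by
    intro S hS
    have hS' := hS
    rw [hFdef, mem_filter] at hS'
    obtain ⟨hSA, ⟨hSk, hSF⟩, hSm⟩ := hS'
    have hT : ∀ p ∈ la (zz X) S, p.Prime ∧ p ∉ S₀ := by
      intro p hp
      unfold la at hp
      rw [mem_filter] at hp
      refine ⟨((SA_mem.1 hSA).1 p hp.1).1, fun h => hp.2 (hS₀ p h).2⟩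
    have hMM : (3 : ℝ) ^ (K * (S₀.card + Nat.log 2 (la (zz X) S).card + 1)) ≤ G :=
      three_pow_le K S₀.card ((card_le_card (filter_subset _ _)).trans hSk) hk
    have h2 := pr_le_av S (fun γ : ℕ → Q => ¬ NdG lb K γ (sm (zz X) S) (la (zz X) S))
      (fun γ => ∑ q : Q, (∑ W ∈ PPP, ∏ p ∈ (la (zz X) S).filter (fun p => γ p = q),
          gWG M lb W p +
        ∑ π : Gr r, G * ∏ p ∈ (la (zz X) S).filter (fun p => γ p = q), gAG M (cl π) p))
      (fun γ => sum_nonneg fun q _ => add_nonneg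
        (sum_nonneg fun W _ => prod_nonneg fun p _ => gWG_ge _ _ _ _)
        (sum_nonneg fun π _ => mul_nonneg hM0 (prod_nonneg fun p _ => gAG_nn _ _ _)))
      (fun γ hγ => by
        rw [hSm] at hγ
        exact ptw M lb cl hcl K S₀ _ hT γ G hMM hγ)
    refine h2.trans (le_of_eq ?_)
    rw [av_sum]
    have h3 : ∀ q' : Q, av S (fun γ => ∑ W ∈ PPP, ∏ p ∈ (la (zz X) S).filter (fun p => γ p = q'),
        gWG M lb W p +
        ∑ π : Gr r, G * ∏ p ∈ (la (zz X) S).filter (fun p => γ p = q'), gAG M (cl π) p) =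
        ∑ W ∈ PPP, ∏ p ∈ la (zz X) S, (1 - (1 - gWG M lb W p) / q) +
        ∑ π : Gr r, G * ∏ p ∈ la (zz X) S, (1 - (1 - gAG M (cl π) p) / q) := by
      intro q'
      have h5 : ∀ g : ℕ → ℝ, av S (fun γ => ∏ p ∈ (la (zz X) S).filter (fun p => γ p = q'), g p) =
          ∏ p ∈ la (zz X) S, (1 - (1 - g p) / q) :=
        fun g => av_prod S _ (filter_subset _ _) q' g
      have h6 : ∀ π : Gr r, av S (fun γ => G * ∏ p ∈ (la (zz X) S).filter (fun p => γ p = q'),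
          gAG M (cl π) p) = G * ∏ p ∈ la (zz X) S, (1 - (1 - gAG M (cl π) p) / q) := by
        intro π
        rw [av_mul, h5]
      rw [av_add, av_sum, av_sum, sum_congr rfl fun W _ => h5 (gWG M lb W),
        sum_congr rfl fun π _ => h6 π]
    rw [sum_congr rfl fun q' _ => h3 q', sum_const, card_univ, nsmul_eq_mul]
  refine (sum_le_sum h1).trans ?_
  rw [← mul_sum, sum_add_distrib, sum_comm]
  have hswap : ∑ S ∈ F, ∑ π : Gr r, G * ∏ p ∈ la (zz X) S, (1 - (1 - gAG M (cl π) p) / q) =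
      ∑ π : Gr r, G * ∑ S ∈ F, ∏ p ∈ la (zz X) S, (1 - (1 - gAG M (cl π) p) / q) := by
    rw [sum_comm]
    exact sum_congr rfl fun π _ => (mul_sum _ _ _).symm
  rw [hswap]
  set B : ℝ := C * (1 + Real.log (pN S₀)) * Z with hB
  have hB0 : 0 ≤ B := by
    rw [hB]
    positivity
  have hS₀' : ∀ u ∈ S₀, Po u := fun u hu => (hS₀ u hu).1
  obtain ⟨hCW, hC3⟩ := hC q (X / pN S₀) hr1 hT1
  have hav0 : ∀ g : ℕ → ℝ, (∀ p, 0 ≤ g p) → (∀ p, g p ≤ 1) → ∀ p, 0 ≤ 1 - (1 - g p) / q := by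
    intro g h0 h1 p
    have h2 := h0 p
    have h3 := h1 p
    have : (1 - g p) / q ≤ 1 := by
      rw [div_le_one hr0]
      linarith
    linarith
  have h4 : ∀ W ∈ PPP, ∑ S ∈ F, ∏ p ∈ la (zz X) S, (1 - (1 - gWG M lb W p) / q) ≤ B := by
    intro W hW
    rw [hPPP, mem_filter, mem_powerset] at hW
    have hWP : ∀ u ∈ W, Po u := fun u hu => hS₀' u (hW.1 hu)
    refine (fiberW X (zz X) S₀ hS₀' F hF _
      (hav0 (gWG M lb W) (gWG_ge M lb W) (gWG_le M lb W))).trans ?_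
    refine (hCW W hW.2 fun u hu => ⟨hWP u hu, hdiv u (hW.1 hu)⟩).trans ?_
    rw [hB]
    refine mul_le_mul_of_nonneg_right ?_ hZ0
    refine mul_le_mul_of_nonneg_left ?_ hC0.le
    have e1 : ∏ u ∈ W, u ≤ pN S₀ :=
      prod_le_prod_of_subset_of_one_le' hW.1 fun u hu _ => (hS₀' u hu).1.one_lt.le
    have hW0 : (0 : ℝ) < ((∏ u ∈ W, u : ℕ) : ℝ) := by
      exact_mod_cast prod_pos' fun p hp => (hWP p hp).1
    have e3 : Real.log ((∏ u ∈ W, u : ℕ) : ℝ) ≤ Real.log (pN S₀) := by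
      refine Real.log_le_log hW0 ?_
      exact_mod_cast e1
    linarith
  have h5 : ∀ π : Gr r, ∑ S ∈ F, ∏ p ∈ la (zz X) S, (1 - (1 - gAG M (cl π) p) / q) ≤ B := by
    intro π
    refine (fiberW X (zz X) S₀ hS₀' F hF _
      (hav0 (gAG M (cl π)) (gAG_nn M (cl π)) (gAG_le M (cl π)))).trans ?_
    refine (hC3 (cl π) (hcl0 π).1 (hcl0 π).2).trans ?_
    rw [hB]
    refine mul_le_mul_of_nonneg_right ?_ hZ0
    nlinarith
  have hcP : (PPP.card : ℝ) ≤ 2 ^ S₀.card := by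
    have : PPP.card ≤ 2 ^ S₀.card := by
      rw [← card_powerset]
      exact card_filter_le _ _
    exact_mod_cast this
  have h6 : ∑ W ∈ PPP, ∑ S ∈ F, ∏ p ∈ la (zz X) S, (1 - (1 - gWG M lb W p) / q) ≤
      2 ^ S₀.card * B := by
    refine (sum_le_sum h4).trans ?_
    rw [sum_const, nsmul_eq_mul]
    exact mul_le_mul_of_nonneg_right hcP hB0
  have h7 : ∑ π : Gr r, G * ∑ S ∈ F, ∏ p ∈ la (zz X) S, (1 - (1 - gAG M (cl π) p) / q) ≤
      R * (G * B) := by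
    refine (sum_le_sum fun π _ => mul_le_mul_of_nonneg_left (h5 π) hM0).trans ?_
    rw [sum_const, card_univ, nsmul_eq_mul]
  have hk1 : (1 : ℝ) ≤ (kk X : ℝ) ^ (2 * K) := one_le_pow₀ (by exact_mod_cast hk)
  have h3K : (1 : ℝ) ≤ 3 ^ K := one_le_pow₀ (by norm_num)
  have h23 : (1 : ℝ) ≤ 2 * 3 ^ K := by linarith
  have h8 : (2 : ℝ) ^ S₀.card ≤ (2 * 3 ^ K) ^ S₀.card * (kk X : ℝ) ^ (2 * K) := by
    have e1 : (2 : ℝ) ^ S₀.card ≤ (2 * 3 ^ K) ^ S₀.card :=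
      pow_le_pow_left₀ (by norm_num) (by linarith) _
    have e3 : (0 : ℝ) ≤ (2 * 3 ^ K) ^ S₀.card := by positivity
    nlinarith
  have h9 : G ≤ 3 ^ K * ((2 * 3 ^ K) ^ S₀.card * (kk X : ℝ) ^ (2 * K)) := by
    rw [hMdef]
    have e1 : ((3 : ℝ) ^ K) ^ S₀.card ≤ (2 * 3 ^ K) ^ S₀.card :=
      pow_le_pow_left₀ (by positivity) (by linarith) _
    rw [mul_assoc]
    refine mul_le_mul_of_nonneg_left ?_ (by positivity)
    exact mul_le_mul_of_nonneg_right e1 (by positivity)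
  have h10 : 2 ^ S₀.card * B + R * (G * B) ≤
      (1 + R * 3 ^ K) * ((2 * 3 ^ K) ^ S₀.card * (kk X : ℝ) ^ (2 * K)) * B := by
    have e1 : R * G ≤ R * (3 ^ K * ((2 * 3 ^ K) ^ S₀.card * (kk X : ℝ) ^ (2 * K))) :=
      mul_le_mul_of_nonneg_left h9 hR0
    have e2 : 2 ^ S₀.card * B + R * (G * B) = (2 ^ S₀.card + R * G) * B := by ring
    rw [e2]
    refine mul_le_mul_of_nonneg_right ?_ hB0
    calc (2 : ℝ) ^ S₀.card + R * G ≤ (2 * 3 ^ K) ^ S₀.card * (kk X : ℝ) ^ (2 * K) +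
        R * (3 ^ K * ((2 * 3 ^ K) ^ S₀.card * (kk X : ℝ) ^ (2 * K))) := add_le_add h8 e1
      _ = _ := by ring
  calc q * (∑ W ∈ PPP, ∑ S ∈ F, ∏ p ∈ la (zz X) S, (1 - (1 - gWG M lb W p) / q) +
      ∑ π : Gr r, G * ∑ S ∈ F, ∏ p ∈ la (zz X) S, (1 - (1 - gAG M (cl π) p) / q)) ≤
      q * (2 ^ S₀.card * B + R * (G * B)) :=
        mul_le_mul_of_nonneg_left (add_le_add h6 h7) hr0.le
    _ ≤ q * ((1 + R * 3 ^ K) * ((2 * 3 ^ K) ^ S₀.card * (kk X : ℝ) ^ (2 * K)) * B) :=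
        mul_le_mul_of_nonneg_left h10 hr0.le
    _ = _ := by rw [hB]; ring

/-- GK-RAREG -/
theorem t_RAREG : S_RAREG := by
  intro hE hH hCL hME r D M lb hL Q _ _ K ε hε
  obtain ⟨C, κ, hC1, hκ0, hκ1, hC⟩ := hE hH hCL hME r M lb hL.toLabZ
  have hM : 0 < M := hL.pos
  have hr0 : (0 : ℝ) < Fintype.card Q := card_pos'
  have hr1 : (1 : ℝ) ≤ Fintype.card Q := by exact_mod_cast Fintype.card_pos (α := Q)
  choose cl₀ hcl₀ using hL.surj
  have hcl0 : ∀ π, cl₀ π % M < M ∧ (cl₀ π % M).Coprime M := by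
    intro π
    refine ⟨Nat.mod_lt _ hM, ?_⟩
    have := (hcl₀ π).1
    unfold Nat.Coprime at this ⊢
    rw [← Nat.gcd_rec, Nat.gcd_comm]
    exact this
  have hcl : ∀ π : Gr r, ∀ p : ℕ, p.Prime → p % M = cl₀ π % M % M → lb p = π := by
    intro π p hp h
    rw [Nat.mod_mod] at h
    exact (hcl₀ π).2 p hp h
  have hgen := genN (2 * 3 ^ K) (Fintype.card Q * ((1 + Fintype.card (Gr r) * 3 ^ K) * C))
    (κ / Fintype.card Q) (2 * K) (by positivity) (by positivity) (by positivity)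
    (by rw [div_le_one (by positivity)]; linarith) M.primeFactors
    (fun X S => pr S (fun γ : ℕ → Q => ¬ NdG lb K γ (sm (zz X) S) (la (zz X) S)))
    (fun X S₀ hS₀ _ hk hT1 => fibC M hM lb (fun π => cl₀ π % M) hcl0 hcl hC1 hC Q K X S₀ hS₀ hk
      hT1) ε hε
  obtain ⟨X₀, hX₀⟩ := hgen
  refine ⟨X₀, fun X hX => ?_⟩
  refine le_trans (le_of_eq ?_) (hX₀ X hX)
  refine sum_congr (filter_congr fun S hS => ?_) fun _ _ => rfl
  refine and_congr Iff.rfl ?_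
  rw [Finset.disjoint_left]
  refine forall_congr' fun p => forall_congr' fun hp => not_congr ?_
  rw [Nat.mem_primeFactors]
  exact ⟨fun h => ⟨((SA_mem.1 hS).1 p hp).1, h, hM.ne'⟩, fun h => h.2.1⟩

end Pool.Agent.N572.GK.RAREG
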